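import Pool.Agent.N165.CU.Main

set_option autoImplicit false

/-! # Poincare series of hypergraph polynomials of rank three

For every polynomial `f` with integral coefficients there is a finite hypergraph `E` whose edges have
one, two or three elements such that the Poincare series of `f` and of
`F = ∑_{e ∈ E} ∏_{i ∈ e} x_i` satisfy, for every prime `p`,
`(p - T) P_F(T) = 1 + (p - 1) P_f(p ^ (-m) T)`. So the strong monodromy conjecture for the poles of the
Poincare series is true for all polynomials if it is true for the hypergraph polynomials; the same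
holds with orders of poles and multiplicities of roots. -/

namespace Pool.Agent.Results.MP_5d9b3c_ag.HypergraphPoincare

open MvPolynomial Pool.Agent.W427.SMC Pool.Agent.H628R4.TP Pool.Agent.N165.CU

/-- **Poincare series and hypergraph polynomials of rank three.** (1) For every `f` with integral
coefficients there are a hypergraph `E` with edges of size one, two and three and `m ≥ 2` such that,
with `F = ∑_{e ∈ E} ∏_{i ∈ e} x_i`, `(p - T) P_F(T) = 1 + (p - 1) P_f(p ^ (-m) T)` for the Poincare
series and every prime `p`, and such that `(s + 1) b(s + m)` satisfies a functional equation of `F` if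
`b` satisfies one of `f`. (2) For every prime `p`: the strong monodromy conjecture for Poincare series
is true for all `f` if it is true for the hypergraph polynomials with edges of size one, two and three.
(3) The same with orders. -/
theorem result :
    (∀ (V : Type) [Fintype V] (f : MvPolynomial V ℤ),
      ∃ (W : Type) (_ : Fintype W) (E : Finset (Finset W)) (m : ℕ),
        (∀ e ∈ E, 1 ≤ e.card ∧ e.card ≤ 3) ∧ 2 ≤ m ∧
        (∀ (p : ℕ) [Fact p.Prime],
          (PowerSeries.C (p : ℂ) - PowerSeries.X) * poincare p (hyp E) =
            1 + PowerSeries.C ((p : ℂ) - 1) *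
              PowerSeries.rescale (((p : ℂ) ^ m)⁻¹) (poincare p f)) ∧
        ∀ b : Polynomial ℂ, IsBFunction (map (Int.castRingHom ℂ) f) b →
          IsBFunction (map (Int.castRingHom ℂ) (hyp E))
            ((Polynomial.X + 1) * b.comp (Polynomial.X + Polynomial.C (m : ℂ)))) ∧
    (∀ (p : ℕ) [Fact p.Prime],
      (∀ (W : Type) [Fintype W] (E : Finset (Finset W)), (∀ e ∈ E, 1 ≤ e.card ∧ e.card ≤ 3) →
        PoincareMonodromy p (hyp E)) ↔
      ∀ (V : Type) [Fintype V] (f : MvPolynomial V ℤ), PoincareMonodromy p f) ∧
    ∀ (p : ℕ) [Fact p.Prime],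
      (∀ (W : Type) [Fintype W] (E : Finset (Finset W)), (∀ e ∈ E, 1 ≤ e.card ∧ e.card ≤ 3) →
        PoincareMonodromyOrders p (hyp E)) ↔
      ∀ (V : Type) [Fintype V] (f : MvPolynomial V ℤ), PoincareMonodromyOrders p f := by
  refine ⟨fun V _ f => dictionary_poincare f,
    fun p _ => ⟨fun h V _ f => ?_, fun h W _ E _ => h W (hyp E)⟩,
    fun p _ => ⟨fun h V _ f => ?_, fun h W _ E _ => h W (hyp E)⟩⟩
  · obtain ⟨W, _, E, hE, h1⟩ := core_poincare parts f
    exact (h1 p).1 (h W E hE)
  · obtain ⟨W, _, E, hE, h1⟩ := core_poincare parts f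
    exact (h1 p).2 (h W E hE)

end Pool.Agent.Results.MP_5d9b3c_ag.HypergraphPoincare
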