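import Pool.Agent.N138.RF.Fin

set_option autoImplicit false

/-! # Denef's question for formulas over arbitrary plane curves, every prime

Let `RO` (`Pool/Agent/N138/RF/Cl3.lean`) be the smallest class of polynomials over `ℚ` such that
* all nonconstant polynomials `f(x, y)` in two variables are in `RO` (they may be nonreduced and may
  have arbitrary singularities, for all critical values), and so are the weighted homogeneous
  polynomials with an isolated critical point, in any number of variables;
* if `F(x)`, `G(y)` are in `RO`, `x` and `y` disjoint sets of variables, then `F(x) + G(y)` and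
  `F(x) G(y)` are in `RO`;
* if `F` is in `RO` then `P(F)` is in `RO` for every nonconstant `P ∈ ℚ[t]`;
* unused variables may be dropped, variables may be renamed.

So for instance, for arbitrary plane curves `f_i` and arbitrary `P, Q ∈ ℚ[t]`,
`P(f_1(x_1, y_1) f_2(x_2, y_2) + f_3(x_3, y_3)) (Q(f_4(x_4, y_4)) + u ^ M + v ^ N) + f_5(x_5, y_5)`
is in the class. The singularities of such polynomials are in general neither isolated nor
quasi-homogeneous. For every `F ∈ RO` with integral coefficients and for EVERY prime `p` (no prime is
excluded) the real part `t_0 = -log |T_0| / log p` of every pole `T_0` of the Poincare series of `F`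
is a root of `b_F`. The theorem is proved for the larger class `Cl3`, which also contains the class
`Cl2` (`Pool/Agent/N138/SV/Cl2.lean`) and is closed under adding weighted homogeneous polynomials with
an isolated critical point, under the Thom-Sebastiani sums `∑ y_j f_j(x) + g(z)` with ideals
`(f_j)` of the class, under products, and under products of powers of forms over ideals.

Method (`Pool/Agent/N138/RF`). There is no relation between the Bernstein-Sato polynomials of a sum and
of its summands unless one of them is quasi-homogeneous. Both sides are therefore compared with the
*leading exponents of periods* `Per F e` (`Pool/Agent/N138/SV/Defs.lean`): a family of functionals on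
`ℂ[x]` which behave as the coefficients of `τ ^ (e - m)` in the asymptotic expansions of integrals of
`h exp(-τ F)`, with a nonzero leading coefficient for `h = 1`; then `e` is a root of
`b_F(s) / (s + 1)`.
* `R0`: `Per F e`, `Per G e'` give `Per (F + G) (e + e')`; `R1`: if `l, m ≠ 0`, `Per (F - l) e`,
  `Per (G - m) e'` give `Per (F G - l m) (e + e')`; `R2`: `Per F e` gives `Per (F G) e`; `R3`:
  `Per (F G) (-1)` for nonconstant `F`, `G` with zeros; `R4`: `Per F e` gives
  `Per (F ^ k U(F)) (e / k)`, `U(0) ≠ 0`, and, for `k ≥ 2`, the exponent `-1 / k` occurs as well;
  `R6`: weighted homogeneous polynomials.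
* A polynomial over `ℚ_p` is *good* (`GI`) if near every point `P` of `ℤ_p ^ n`, on all balls, the
  distribution of `F - F(P)` is invariant under the multiplication by the units near `1`, and all
  the components (with respect to the characters of `ℤ_p ^ *`) of its exponential sums have poles
  only at the exponents of periods of `F - F(P)`. Plane curves (`G4`, `C5`, by
  `Pool/Agent/N138/SV`) and weighted homogeneous polynomials (`G5`, `Wh`, `S`) are good, and good
  polynomials are closed under sums (`G1`), products (`G2`: near a point with `F, G ≠ 0` the product
  behaves as a sum; near a common zero the twisted zeta functions are multiplied) and compositions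
  `P(F)` (`G3`, `L6`, `L7`).
* For good polynomials the points with `F(P) ≠ 0` do not contribute to the poles of the zeta function
  (`G6`), so all the poles are leading exponents of periods of `F`, or `-1`. -/

namespace Pool.Agent.Results.MP_5d9b3c_ag.ReadOnceFormulas

open MvPolynomial Pool.Agent.W427.SMC Pool.Agent.H628R4.TP Pool.Agent.N138.SU
open Pool.Agent.N138.RF

/-- **Denef's question for the class `Cl3` and every prime `p`.** Let `(F)` be in the class, for
instance `F ∈ RO`, let `b` satisfy a functional equation `b(s) F ^ s = P(s) F ^ (s + 1)`, for instance
`b = b_F`, and let `p` be a prime. The Poincare series of `F` is the expansion at `0` of a rational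
function `Φ`, and `b(-log |T₀| / log p) = 0` for every pole `T₀` of `Φ`, that is, for every root
`T₀` of the reduced denominator of `Φ`. -/
theorem result {V : Type} [Fintype V] (F : MvPolynomial V ℤ)
    (hF : Cl3 .ideal ⟨V, Fin 1, fun _ => map (Int.castRingHom ℚ) F⟩) (p : ℕ) [Fact p.Prime]
    (b : Polynomial ℂ) (hb : IsBFunction (map (Int.castRingHom ℂ) F) b) :
    ∃ Φ : RatFunc ℂ,
      ((Φ.denom : Polynomial ℂ) : PowerSeries ℂ) * poincare p F =
        ((Φ.num : Polynomial ℂ) : PowerSeries ℂ) ∧
      ∀ T₀ : ℂ, Φ.denom.eval T₀ = 0 →
        b.eval ((-Real.log ‖T₀‖ / Real.log p : ℝ) : ℂ) = 0 :=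
  E4.cl3_poin hy3 F hF b hb

end Pool.Agent.Results.MP_5d9b3c_ag.ReadOnceFormulas
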