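import Mathlib
import Pool.Agent.TH216.EP.GenP

/-!
# Poles of Igusa's Poincaré series, generic integral coefficients, ANY number of variables, EVERY
prime: simplices and B1-facets

Let `f = ∑_j c_j x ^ (v j) + h`, where `h ∈ ℤ[x_1, …, x_n]` is an ARBITRARY polynomial whose exponents
lie in the Newton polyhedron of the `v j ≠ 0`, and only the integral coefficients `c_j` (for instance
at the vertices of the Newton polyhedron of `f`) are generic: `g(c) ≠ 0` for a certain nonzero
polynomial `g` with rational coefficients, which depends only on the `v j` and `h` and not on a prime.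
The number `n` of the variables is arbitrary and the singularities need not be isolated. Then for
EVERY prime `p` (no prime is excluded: `p` may divide all the coefficients, and the reduction modulo
`p` may be arbitrarily degenerate) and for every pole `T₀` of Igusa's Poincaré series of `f`:

* the order of the pole is at most the multiplicity of `t₀ = - log |T₀| / log p` as a root of the
  Bernstein-Sato polynomial of `f` if at every `v j` the facets of this candidate pole through
  `v j` are simplices or `B1`-facets in a common direction;
* `t₀` is a root of the Bernstein-Sato polynomial of `f` if for every candidate pole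
  `- |a| / N_a ≠ -1` either one of its facets contains a simplex which is not `B1`, or at every `v j` the
  facets of the candidate pole through `v j` are simplices or `B1`-facets in a common direction. In
  particular this holds if on every facet the `v j` are linearly independent (in the coordinates with
  `a i ≠ 0`) and the exponents of `h` on it are in the convex hull of the `v j`.

Method. If the `c_j` are algebraically independent over `ℚ`, the functional equation of `b_f` gives
an identity in a polynomial ring with one variable for every `v j`. It is extended to the further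
monomials (a filtration by the convex hull of the `v j`) and turned into a multiplicative identity
for the series `∑_u p ^ (-|u|) F (⟨u, m_1⟩ - t, …, ⟨u, m_k⟩ - t)`, `F` a difference polynomial applied
to the Heaviside function of the orthant. The coefficients of the Poincaré series are such sums,
for every prime: on `{x | ord x_i = u_i}` the condition `p ^ t ∣ f(x)` is a condition on units depending
only on the numbers `z_j = ⟨u, m_j⟩ + ord(c_j) - t`. As `f` is nondegenerate over `ℚ̄`, a compactness
argument (Dickson's lemma) and Hensel's lemma show that the measure of this set of units is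
multiplied by `p⁻¹` if `z` is replaced by `z - 1`, as soon as one of the `z_j` is `< - L`; scaling one
coordinate by units `1 + p ^ e` gives, without any good reduction, the relations between these measures
if a monomial contains a coordinate with exponent `1`. The Nullstellensatz and the nilpotence of the
thickening of the zero set of the ideal of these relations show that the order of the pole is at most
the multiplicity of the root of the generic Bernstein-Sato polynomial. Gröbner bases in the Weyl
algebra over `ℚ(c_1, …, c_r)` compare the generic Bernstein-Sato polynomial with the one of a single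
member.
-/

set_option autoImplicit false

namespace Pool.Agent.Results.MP_5d9b3c_ag.SimplicialEveryPrime

open Pool.Agent.W206.CU Pool.Agent.TH216.EP
open Pool.Agent.TH216.MF (HypL LocS)
open Pool.Agent.W426.SM (gord IsRay)

/-- **Denef's question on the poles of Igusa's Poincaré series for the polynomials
`f = ∑_j c_j x ^ (v j) + h` over `ℤ` in any number of variables with generic coefficients `c_j`, EVERY
prime `p`, with orders; simplices, and `B1`-facets in a direction depending on the vertex.**

`spa v c` is the polynomial `∑_j c_j x ^ (v j)`. `NP v w` says that `w` is in the Newton polyhedron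
`conv {v j} + ℝ_{≥ 0} ^ n`.

`LocS v h σ` is a condition on the candidate pole `-σ`: for every `v j1` there is a variable `x_i` such
that each of the rays `a` of the normal fan (`IsRay v a`) with `N_a := gord v a = min_j ⟨a, v j⟩ > 0`,
`|a| / N_a = σ` and `⟨a, v j1⟩ = N_a` (the facets through `v j1`) satisfies one of
* its facet is a simplex (`SimH v h a`): the vectors `(v j i)_{a i ≠ 0}`, for the `j` with
  `⟨a, v j⟩ = N_a`, are linearly independent, and the exponents `w` of `h` with `⟨a, w⟩ = N_a` are in
  the convex hull of the `v j` (automatic if all `a i ≠ 0`);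
* it is B1 in the direction `i` (`BD v h i a`): `a i ≠ 0`, and among the monomials of the face of `a`
  (the `x ^ (v j)` and the monomials of `h` of minimal `a`-weight `N_a`) exactly one is divisible by
  `x_i`; this one is some `x ^ (v j0)` with `v j0 i = 1` (it may also occur in `h`).

`HypL v h` says that for every ray `a` of the normal fan with `N_a > 0` one of the following holds:
* `|a| = N_a` (the candidate pole is `-1`);
* `|a| / N_a = |a'| / N_{a'}` for some `a' ∈ ℕ ^ n` with `N_{a'} > 0` and `NonB v False a'`: there is a
  set `J` of `#{i | a' i ≠ 0}` elements with `⟨a', v j⟩ = N_{a'}` for `j ∈ J` such that the vectors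
  `(v j i)_{a' i ≠ 0}`, `j ∈ J`, are linearly independent and such that no variable `x_i` with
  `a' i ≠ 0` occurs in exactly one of the monomials `x ^ (v j)`, `j ∈ J`, and there with exponent `1`;
* `LocS v h σ` for `σ = |a| / N_a`.

`poincare p f = ∑_m a_m (p ^ (-n) T) ^ m`, `a_m` the number of zeros of `f` modulo `p ^ m`.
`IsPoleOfOrder P T₀ m`, `m > 0`, says that `P = A / ((T - T₀) ^ m B)` with polynomials `A`, `B` which do
not vanish at `T₀`: the rational function `P` has a pole of order `m` at `T₀`. `IsBFunction f b` says
that `b(s) f ^ s = P(s) f ^ (s + 1)` for a differential operator `P(s)` in the Weyl algebra, polynomial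
in `s`; the Bernstein-Sato polynomial `b_f` is one of these polynomials `b`.

Conclusion, for every prime `p` and every pole `T₀` of order `m`, `t₀ = - log |T₀| / log p`:
* if `HypL v h`, then `t₀` is a root of `b`;
* if `t₀ = - σ` and `LocS v h σ`, then the order `m` of the pole is at most the multiplicity of `t₀`
  as a root of `b` (so `t₀` is a root). -/
theorem result {n r : ℕ} (hr : 0 < r) (v : Fin r → Fin n → ℕ) (hv : Function.Injective v)
    (hv0 : ∀ j, v j ≠ 0) (h : MvPolynomial (Fin n) ℤ)
    (hh : ∀ w ∈ h.support, Pool.Agent.W425.SV.NP v w) :
    ∃ g : MvPolynomial (Fin r) ℚ, g ≠ 0 ∧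
      ∀ c : Fin r → ℤ, MvPolynomial.eval (fun j => (c j : ℚ)) g ≠ 0 →
      ∀ p : ℕ, p.Prime →
        ∀ (T₀ : ℂ) (m : ℕ), 0 < m →
        IsPoleOfOrder (poincare p (Pool.Agent.W425.ND.spa v c + h)) T₀ m →
        ∀ b : Polynomial ℂ, b ≠ 0 → Pool.Agent.H628R4.TP.IsBFunction
          (MvPolynomial.map (Int.castRingHom ℂ) (Pool.Agent.W425.ND.spa v c + h)) b →
        (HypL v h → b.eval ((-Real.log ‖T₀‖ / Real.log p : ℝ) : ℂ) = 0) ∧
        ∀ σ : ℚ, -Real.log ‖T₀‖ / Real.log p = -(σ : ℝ) → LocS v h σ →
          m ≤ b.rootMultiplicity ((-Real.log ‖T₀‖ / Real.log p : ℝ) : ℂ) := by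
  obtain ⟨g, hg, hgc⟩ := gen_ordE hr v hv hv0 h hh
  refine ⟨g, hg, fun c hc p hpp T₀ m hm hP b hb0 hb => ?_⟩
  obtain ⟨h3, h4, α, hα, h5⟩ := hgc c hc p hpp T₀ m hm hP b hb0 hb
  have hcast : ((-Real.log ‖T₀‖ / Real.log p : ℝ) : ℂ) = (α : ℂ) := by
    rw [hα]
    push_cast
    rfl
  have hroot : LocS v h (-α) → b.eval ((-Real.log ‖T₀‖ / Real.log p : ℝ) : ℂ) = 0 := by
    intro h6
    have h7 := h5 h6
    have h8 : 0 < b.rootMultiplicity ((-Real.log ‖T₀‖ / Real.log p : ℝ) : ℂ) := by omega
    exact (Polynomial.rootMultiplicity_pos hb0).1 h8
  refine ⟨fun hL => ?_, fun σ hσ hL => ?_⟩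
  · by_cases hray : ∃ a : Fin n → ℕ, IsRay v a ∧ 0 < gord v a ∧
        ((∑ i, a i : ℕ) : ℚ) / gord v a = -α
    · obtain ⟨a, ha, hg', hαa⟩ := hray
      have hαa' : α = -(((∑ i, a i : ℕ) : ℚ) / gord v a) := by rw [hαa, neg_neg]
      rcases hL a ha hg' with h6 | ⟨a', hga', hn', he⟩ | h6
      · have : α = -1 := by
          rw [hαa', h6, div_self (by exact_mod_cast hg'.ne')]
        rw [hcast, this]
        push_cast
        exact h3
      · rw [hcast, hαa', he]
        have := h4 a' hga' hn'
        push_cast at this ⊢
        exact this
      · rw [hαa] at h6
        exact hroot h6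
    · apply hroot
      intro j1
      obtain ⟨i, hi⟩ : ∃ i, v j1 i ≠ 0 := by
        by_contra hcon
        push Not at hcon
        exact hv0 j1 (funext hcon)
      exact ⟨i, fun a ha hg' _ hσ => absurd ⟨a, ha, hg', hσ⟩ hray⟩
  · have h6 : σ = -α := by
      have h7 : ((α : ℚ) : ℝ) = ((-σ : ℚ) : ℝ) := by
        rw [← hα, hσ]
        push_cast
        rfl
      have h8 : α = -σ := by exact_mod_cast h7
      rw [h8, neg_neg]
    exact h5 (h6 ▸ hL)

end Pool.Agent.Results.MP_5d9b3c_ag.SimplicialEveryPrime
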