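import Pool.Agent.N105.PP.Poin

set_option autoImplicit false

/-! # Denef's question for every prime: Thom-Sebastiani sums and products of powers of forms

Two classes of ideals, given by finitely many generators with rational coefficients: `PTS strict
false` for ideals and `PTS strict true` for hypersurfaces (`Pool/Agent/R852/PP/Defs.lean`).
* `Good strict` (of `Pool/Agent/Y230/PS/Defs.lean`) is the smallest class of ideals which contains
  all nonzero ideals of `ℚ[x, y]` and the families which generate the unit ideal, and which is closed
  under sums `I + J` and products `I J` in disjoint sets of variables and under cones: if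
  `f_1, ..., f_r` are forms of degree `d > 0` in `x_0, ..., x_n`, of which `n + 1` are algebraically
  independent, and if the ideals of all charts `x_i = 1` are in the class (and, for
  `strict = true`, if `-(n + 1) / d` is not a root of the Bernstein-Sato polynomials of the charts),
  then `(f_1, ..., f_r)` is in the class.
* `PTS strict false` contains `Good strict`, all monomial ideals in any number of variables,
  `PTS strict true` and the POWERS `g ^ k` of its members, and is closed under sums and products in
  disjoint sets of variables.
* `PTS strict true` contains all plane curves, the polynomials `∑ y_j f_j(x)`, more generally the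
  PRODUCTS OF POWERS OF FORMS `h(x) ∏_t (∑_j y_{t, j} f_{t, j}(x)) ^ a_t` if the ideal
  `h ∏_t (f_{t, j})_j ^ a_t` is in `PTS strict false`, and the Thom-Sebastiani sums
  `∑ y_j f_j(x) + g(z)` for `(f_j)` in `PTS strict false` and `g` in `PTS strict true`; it is closed
  under products in disjoint sets of variables and under dropping variables which do not occur.

For every polynomial `F` with integer coefficients such that the ideal `(F)` is in the class, in any
number of variables, and for EVERY prime `p` (no prime is excluded, the reduction modulo `p` may be
arbitrarily bad), the Poincare series of `F` is rational, the number `t_0 = -log |T_0| / log p` is a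
root of `b_F` for every pole `T_0`, and (`strict = true`) the order of the pole is at most the
multiplicity of the root.

Method. Volumes for the sums, the two-variable case by the tree of the infinitely near points, and:
* `h(x) ∏_t (∑_j y_{t, j} f_{t, j}(x)) ^ a_t`: for fixed `x` the integral over `y` is
  `‖h ∏_t I_t ^ a_t‖ ^ s ∏_t (p - 1) / (p - p ^ (-a_t s))`. A functional equation of the polynomial
  has the form `b = ∏_t ∏_{i ≤ a_t} (a_t s + i) b'`, where `b'` satisfies a functional equation of
  the ideal `h ∏_t (f_{t, j})_j ^ a_t`, with multiplicities.
* the zeta function of `g ^ k` is the one of `g` at `k s`, and a functional equation of `g ^ k` gives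
  one of `g`, with shifts `j < k`.
* monomial ideals: cones of the orthant, and the facets of the Newton polyhedron give the roots, with
  multiplicities. -/

namespace Pool.Agent.Results.MP_5d9b3c_ag.SumsPowersForms

open MvPolynomial Pool.Agent.W427.SMC Pool.Agent.H628R4.TP Pool.Agent.R852.PP

/-- **Denef's question for the hypersurfaces of the class `PTS` and every prime `p`, with orders.**
Let `b ≠ 0` satisfy a functional equation `b(s) F ^ s = P(s) F ^ (s + 1)`, for instance `b = b_F`,
let `p` be a prime, and for a complex number `T₀` put `t₀ = -log |T₀| / log p`.

(i) If `(F)` is in the class `PTS false false`, then the Poincare series of `F` is the expansion at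
`0` of a rational function `Φ`, and `b(t₀) = 0` for every pole `T₀` of `Φ`, that is, for every root
`T₀` of the reduced denominator of `Φ`.

(ii) If `(F)` is in the class `PTS true false`, then the order of the pole `T₀` of `Φ` is at most
the multiplicity of `t₀` as a root of `b`. -/
theorem result {V : Type} [Fintype V] (F : MvPolynomial V ℤ) (p : ℕ) [Fact p.Prime]
    (b : Polynomial ℂ) (hb0 : b ≠ 0) (hb : IsBFunction (map (Int.castRingHom ℂ) F) b) :
    (PTS false false ⟨V, Fin 1, fun _ => map (Int.castRingHom ℚ) F⟩ →
      ∃ Φ : RatFunc ℂ,
        ((Φ.denom : Polynomial ℂ) : PowerSeries ℂ) * poincare p F =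
          ((Φ.num : Polynomial ℂ) : PowerSeries ℂ) ∧
        ∀ T₀ : ℂ, Φ.denom.eval T₀ = 0 →
          b.eval ((-Real.log ‖T₀‖ / Real.log p : ℝ) : ℂ) = 0) ∧
    (PTS true false ⟨V, Fin 1, fun _ => map (Int.castRingHom ℚ) F⟩ →
      ∃ Φ : RatFunc ℂ,
        ((Φ.denom : Polynomial ℂ) : PowerSeries ℂ) * poincare p F =
          ((Φ.num : Polynomial ℂ) : PowerSeries ℂ) ∧
        ∀ T₀ : ℂ, Φ.denom.rootMultiplicity T₀ ≤
          b.rootMultiplicity ((-Real.log ‖T₀‖ / Real.log p : ℝ) : ℂ)) :=
  ⟨fun hF => poin_R F hF b hb, fun hF => Pool.Agent.N105.PP.poin_M F hF b hb0 hb⟩

end Pool.Agent.Results.MP_5d9b3c_ag.SumsPowersForms
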